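import Pool.Agent.helper6.EU.SpecT

/-!
# Project eu (MP_ad8ced_nt), row TSA: type I with the sieve, for one prime `l`
-/

set_option autoImplicit false

open Finset

noncomputable section

namespace Pool.Agent.EU

open Pool.Agent.FI Pool.Agent.FJ

/-- divisibility indicator -/
private def TSA_h (l : ℤ) (p : ℕ) (a : ℤ) : ℝ := if p ∣ nn (a, l) then 1 else 0

private lemma TSA_dvd (D : Finset ℕ) (hD : ∀ p ∈ D, p.Prime) (l a : ℤ) :
    ∏ p ∈ D, TSA_h l p a = if (∏ p ∈ D, p) ∣ nn (a, l) then 1 else 0 := by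
  unfold TSA_h
  rw [Finset.prod_ite_zero]
  simp only [Finset.prod_const_one]
  have : (∀ p ∈ D, p ∣ nn (a, l)) ↔ (∏ p ∈ D, p) ∣ nn (a, l) := by
    constructor
    · intro h
      exact Finset.prod_primes_dvd _ (fun p hp => (hD p hp).prime) h
    · intro h p hp
      exact (Finset.dvd_prod_of_mem _ hp).trans h
  simp only [this]

private lemma TSA_rg (Z : ℕ) (l a : ℤ) [Decidable (RgN Z (nn (a, l)))] :
    ∏ p ∈ Nat.primesLE Z, (1 - TSA_h l p a) = if RgN Z (nn (a, l)) then 1 else 0 := by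
  split_ifs with h
  · refine Finset.prod_eq_one fun p hp => ?_
    obtain ⟨h1, h2⟩ := Nat.mem_primesLE.mp hp
    unfold TSA_h
    rw [if_neg]
    · norm_num
    intro h3
    exact absurd (h p h2 h3) (by omega)
  · unfold RgN at h
    push Not at h
    obtain ⟨p, hp, hd, hz⟩ := h
    refine Finset.prod_eq_zero (Nat.mem_primesLE.mpr ⟨hz, hp⟩) ?_
    unfold TSA_h
    rw [if_pos hd]
    norm_num

private def TSA_w (p : ℕ) : ℝ := if p.Prime then om1 p else 0

private lemma TSA_w0 (p : ℕ) : 0 ≤ TSA_w p := by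
  unfold TSA_w om1
  split_ifs <;> positivity

private lemma TSA_w2 (hTRT : TRT_stmt) (p : ℕ) : TSA_w p ≤ 2 := by
  unfold TSA_w om1
  split_ifs with h1 h2
  · norm_num
  · exact_mod_cast hTRT.2.2 p h1 h2
  · norm_num

private lemma TSA_wp (hTRT : TRT_stmt) (p : ℕ) (h : p.Prime) : TSA_w p < p := by
  unfold TSA_w om1
  rw [if_pos h]
  split_ifs with h2
  · exact_mod_cast h.pos
  · have h1 := hTRT.2.2 p h h2
    have h3 : 2 ≤ p := h.two_le
    exact_mod_cast (by omega : rt p < p)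

private lemma TSA_WZ (hTRT : TRT_stmt) (r : ℕ) : 0 ≤ WZ r ∧ WZ r ≤ 1 := by
  have h : ∀ p ∈ Nat.primesLE (Zr r), 0 ≤ 1 - om1 p / p ∧ 1 - om1 p / p ≤ 1 := by
    intro p hp
    have hpp := (Nat.mem_primesLE.mp hp).2
    have h0 : (0 : ℝ) < p := by exact_mod_cast hpp.pos
    have h1 := TSA_wp hTRT p hpp
    have h2 := TSA_w0 p
    unfold TSA_w at h1 h2
    rw [if_pos hpp] at h1 h2
    constructor
    · rw [sub_nonneg, div_le_one h0]
      exact h1.le
    · have : 0 ≤ om1 p / p := by positivity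
      linarith
  unfold WZ
  exact ⟨Finset.prod_nonneg fun p hp => (h p hp).1,
    Finset.prod_le_one (fun p hp => (h p hp).1) fun p hp => (h p hp).2⟩

private lemma TSA_nn {x A : ℕ} (hA : A ≤ x) {a l : ℤ} (ha : a ∈ Icc (1 : ℤ) A)
    (hl : (x : ℤ) < l) : ((nn (a, l) : ℕ) : ℤ) = 8 * l ^ 2 - a ^ 2 ∧ a < l ∧ 1 ≤ a := by
  rw [mem_Icc] at ha
  have h0 : (A : ℤ) ≤ x := by exact_mod_cast hA
  have h1 : a < l := by linarith [ha.2]
  have h2 : 1 ≤ a := ha.1
  refine ⟨?_, h1, h2⟩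
  unfold nn N8
  simp only
  rw [Int.ofNat_natAbs_of_nonpos (by nlinarith)]
  ring

/-- TIA for a prime `l` -/
private lemma TSA_tia (hTIA : TIA_stmt) : ∃ C : ℝ, 0 < C ∧ ∀ x A : ℕ, 2 ≤ x → 1 ≤ A → A ≤ x →
    ∀ m : ℕ, Odd m → ∀ l : ℤ, (x : ℤ) < l → l ≤ 2 * x → l.toNat.Prime → IsCoprime l (m : ℤ) →
    ∀ h : ℕ, h ≤ 1 →
    |∑ a ∈ Icc (1 : ℤ) A with (a % 2 = 1 ∧ m ∣ nn (a, l)), Real.log (nn (a, l)) ^ h
      - rt m / (2 * m) * ∑ a ∈ Icc (1 : ℤ) A, Real.log (nn (a, l)) ^ h|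
    ≤ C * (1 + Real.log x) * rt m := by
  classical
  obtain ⟨C, hC, hT⟩ := hTIA
  refine ⟨3 * C, by positivity, ?_⟩
  intro x A hx hA1 hA m hm l hl1 hl2 hlp hlm h hh
  obtain ⟨p, hp⟩ : ∃ p : ℕ, l = p := ⟨l.toNat, by
    rw [Int.toNat_of_nonneg (by linarith [(Nat.cast_nonneg x : (0 : ℤ) ≤ x)])]⟩
  subst hp
  rw [Int.toNat_natCast] at hlp
  have hp2 : p % 2 = 1 := by
    rcases hlp.eq_two_or_odd with h2 | h2
    · exfalso
      have : x < p := by exact_mod_cast hl1
      omega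
    · exact h2
  have hT1 := hT x A hx hA1 hA m hm p hl1 hl2 (by omega) hlm h hh
  have hxp : (x : ℝ) < p := by exact_mod_cast hl1
  have hx0 : (0 : ℝ) < x := by exact_mod_cast (by omega : 0 < x)
  have hL : 0 ≤ Real.log x := Real.log_natCast_nonneg _
  have hm1 : (1 : ℝ) ≤ m := by exact_mod_cast hm.pos
  have hAx : (A : ℝ) ≤ x := by exact_mod_cast hA
  have e0 : (p : ℤ).natAbs = p := Int.natAbs_natCast p
  rw [e0, hlp.divisors] at hT1
  have e1 : ∑ g ∈ ({1, p} : Finset ℕ) with 1 < g, 1 / (g : ℝ) = 1 / p := by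
    rw [Finset.sum_filter, Finset.sum_insert (by
      rw [Finset.mem_singleton]; exact hlp.ne_one.symm), Finset.sum_singleton,
      if_neg (by norm_num), if_pos hlp.one_lt, zero_add]
  have e2 : (#({1, p} : Finset ℕ) : ℝ) = 2 := by
    rw [Finset.card_pair hlp.ne_one.symm]
    norm_num
  rw [e1, e2] at hT1
  have e3 : ∑ a ∈ Icc (1 : ℤ) A, Real.log ((8 * (p : ℤ) ^ 2 - a ^ 2 : ℤ) : ℝ) ^ h
      = ∑ a ∈ Icc (1 : ℤ) A, Real.log (nn (a, (p : ℤ))) ^ h := by
    refine Finset.sum_congr rfl fun a ha => ?_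
    rw [← (TSA_nn hA ha hl1).1]
    norm_cast
  have e4 : ∑ a ∈ Icc (1 : ℤ) A with (a % 2 = 1 ∧ IsCoprime a (p : ℤ) ∧
        (m : ℤ) ∣ a ^ 2 - 8 * (p : ℤ) ^ 2), Real.log ((8 * (p : ℤ) ^ 2 - a ^ 2 : ℤ) : ℝ) ^ h
      = ∑ a ∈ Icc (1 : ℤ) A with (a % 2 = 1 ∧ m ∣ nn (a, (p : ℤ))),
          Real.log (nn (a, (p : ℤ))) ^ h := by
    rw [Finset.sum_filter, Finset.sum_filter]
    refine Finset.sum_congr rfl fun a ha => ?_
    obtain ⟨f1, f2, f3⟩ := TSA_nn hA ha hl1
    have f4 : IsCoprime a (p : ℤ) := by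
      rw [isCoprime_comm, Int.isCoprime_iff_gcd_eq_one]
      have : Nat.Coprime p a.natAbs := by
        rw [hlp.coprime_iff_not_dvd]
        intro hd
        have := Nat.le_of_dvd (by omega) hd
        omega
      exact this
    have f5 : (m : ℤ) ∣ a ^ 2 - 8 * (p : ℤ) ^ 2 ↔ m ∣ nn (a, (p : ℤ)) := by
      unfold nn N8
      rw [Int.natCast_dvd]
    have f6 : ((8 * (p : ℤ) ^ 2 - a ^ 2 : ℤ) : ℝ) = (nn (a, (p : ℤ)) : ℝ) := by
      rw [← f1]
      norm_cast
    rw [f6]
    simp only [f4, f5, true_and]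
  rw [e3, e4] at hT1
  refine hT1.trans ?_
  have g1 : (A : ℝ) / m * (1 / p) ≤ 1 := by
    have : (A : ℝ) / m ≤ A := div_le_self (Nat.cast_nonneg _) hm1
    calc (A : ℝ) / m * (1 / p) ≤ A * (1 / p) := mul_le_mul_of_nonneg_right this (by positivity)
      _ = A / p := by ring
      _ ≤ 1 := by
        rw [div_le_one (by linarith)]
        linarith
  calc C * (1 + Real.log x) * (rt m * (A / m * (1 / p) + 2))
      ≤ C * (1 + Real.log x) * (rt m * (1 + 2)) := by
        refine mul_le_mul_of_nonneg_left ?_ (by positivity)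
        exact mul_le_mul_of_nonneg_left (by linarith) (Nat.cast_nonneg _)
    _ = 3 * C * (1 + Real.log x) * rt m := by ring

private lemma TSA_rt (hTRT : TRT_stmt) {q : ℕ} (hq : 1 ≤ q) (D : Finset ℕ)
    (hD : ∀ p ∈ D, p.Prime) (hc : ∀ p ∈ D, ¬ p ∣ q) :
    rt (q * ∏ p ∈ D, p) = rt q * ∏ p ∈ D, rt p := by
  classical
  induction D using Finset.induction_on with
  | empty => simp
  | insert p D hpD ih =>
    rw [Finset.prod_insert hpD, Finset.prod_insert hpD]
    have h1 := ih (fun p hp => hD p (mem_insert_of_mem hp))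
      (fun p hp => hc p (mem_insert_of_mem hp))
    have hpp := hD p (mem_insert_self _ _)
    have h2 : Nat.Coprime (q * ∏ p ∈ D, p) p := by
      refine Nat.Coprime.mul_left ?_ ?_
      · exact ((hpp.coprime_iff_not_dvd).mpr (hc p (mem_insert_self _ _))).symm
      · refine Nat.Coprime.prod_left fun i hi => ?_
        refine (Nat.coprime_primes (hD i (mem_insert_of_mem hi)) hpp).mpr ?_
        rintro rfl
        exact hpD hi
    have h3 := hTRT.1 (q * ∏ p ∈ D, p) p
      (Nat.mul_pos hq (Finset.prod_pos fun i hi => (hD i (mem_insert_of_mem hi)).pos))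
      hpp.pos h2
    rw [show q * (p * ∏ x ∈ D, x) = (q * ∏ x ∈ D, x) * p by ring, h3, h1]
    ring

private lemma TSA_lim (C η : ℝ) (hη : 0 < η) (B C₀ c : ℕ) : ∃ x₀ : ℕ, ∀ x : ℕ, x₀ ≤ x →
    2 ≤ x ∧ 4 ≤ Real.log x ∧ Real.log x ^ (2 * C₀) ≤ x ∧
    C * (1 + Real.log x) * (Real.log x ^ (2 * C₀)) ^ (c * (⌈((B : ℝ) + 3) * Real.log (Real.log x)⌉₊ + 1))
      ≤ (x : ℝ) ^ η := by
  set K : ℝ := 2 + 2 * C₀ * c * (B + 5) with hK
  have hK0 : 0 < K := by positivity
  have t1 : ∀ᶠ M : ℝ in Filter.atTop, Real.log M ^ 2 ≤ η / K * M := by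
    have := (Real.isLittleO_pow_log_id_atTop (n := 2)).bound (show 0 < η / K by positivity)
    filter_upwards [this, Filter.eventually_ge_atTop (0 : ℝ)] with M h1 h2
    rw [Real.norm_of_nonneg (by positivity), id, Real.norm_of_nonneg h2] at h1
    exact h1
  have t2 : ∀ᶠ y : ℝ in Filter.atTop, Real.log y ^ (2 * C₀) ≤ y := by
    have := (Real.isLittleO_pow_log_id_atTop (n := 2 * C₀)).bound (show (0 : ℝ) < 1 by norm_num)
    filter_upwards [this, Filter.eventually_ge_atTop (1 : ℝ)] with M h1 h2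
    have h3 : 0 ≤ Real.log M := Real.log_nonneg h2
    rw [Real.norm_of_nonneg (by positivity), id, Real.norm_of_nonneg (by linarith), one_mul] at h1
    exact h1
  have ht : Filter.Tendsto (fun x : ℕ => Real.log x) Filter.atTop Filter.atTop :=
    Real.tendsto_log_atTop.comp tendsto_natCast_atTop_atTop
  have h3 : ∀ᶠ x : ℕ in Filter.atTop, (2 ≤ x) ∧ 4 ≤ Real.log x ∧ Real.log x ^ (2 * C₀) ≤ x ∧
      2 * |C| ≤ Real.log x ∧ Real.log (Real.log x) ^ 2 ≤ η / K * Real.log x := by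
    filter_upwards [Filter.eventually_ge_atTop 2, ht.eventually (Filter.eventually_ge_atTop 4),
      tendsto_natCast_atTop_atTop.eventually t2,
      ht.eventually (Filter.eventually_ge_atTop (2 * |C|)), ht.eventually t1] with x a b c d e
    exact ⟨a, b, c, d, e⟩
  obtain ⟨x₀, hx₀⟩ := Filter.eventually_atTop.mp h3
  refine ⟨x₀, fun x hx => ?_⟩
  obtain ⟨a1, a2, a3, a4, a5⟩ := hx₀ x hx
  refine ⟨a1, a2, a3, ?_⟩
  set M := Real.log x with hM
  have hM0 : 0 < M := by linarith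
  have hx0 : (0 : ℝ) < x := by exact_mod_cast (by omega : 0 < x)
  have hlM : 1 ≤ Real.log M := by
    rw [Real.le_log_iff_exp_le hM0]
    have := Real.exp_one_lt_d9
    linarith
  set b : ℕ := ⌈((B : ℝ) + 3) * Real.log M⌉₊ with hb
  have hb1 : (b : ℝ) + 1 ≤ (B + 5) * Real.log M := by
    have h5 : (b : ℝ) < ((B : ℝ) + 3) * Real.log M + 1 := Nat.ceil_lt_add_one (by positivity)
    nlinarith
  have h6 : C * (1 + M) ≤ M ^ 2 := by
    have h7 : C ≤ |C| := le_abs_self C
    have h8 : 0 ≤ |C| := abs_nonneg C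
    calc C * (1 + M) ≤ |C| * (1 + M) := mul_le_mul_of_nonneg_right h7 (by linarith)
      _ ≤ |C| * (2 * M) := mul_le_mul_of_nonneg_left (by linarith) h8
      _ = 2 * |C| * M := by ring
      _ ≤ M * M := mul_le_mul_of_nonneg_right a4 hM0.le
      _ = M ^ 2 := by ring
  calc C * (1 + M) * (M ^ (2 * C₀)) ^ (c * (b + 1))
      ≤ M ^ 2 * (M ^ (2 * C₀)) ^ (c * (b + 1)) := mul_le_mul_of_nonneg_right h6 (by positivity)
    _ = M ^ (2 + 2 * C₀ * (c * (b + 1))) := by rw [← pow_mul, ← pow_add]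
    _ = Real.exp ((2 + 2 * C₀ * (c * (b + 1)) : ℕ) * Real.log M) := by
        rw [Real.exp_nat_mul, Real.exp_log hM0]
    _ ≤ Real.exp (M * η) := by
        rw [Real.exp_le_exp]
        push_cast
        have h9 : (2 + 2 * (C₀ : ℝ) * (c * (b + 1))) ≤ K * Real.log M := by
          rw [hK]
          have : 2 * (C₀ : ℝ) * (c * (b + 1)) ≤ 2 * (C₀ : ℝ) * (c * ((B + 5) * Real.log M)) :=
            mul_le_mul_of_nonneg_left (mul_le_mul_of_nonneg_left hb1 (Nat.cast_nonneg _))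
              (by positivity)
          nlinarith
        calc (2 + 2 * (C₀ : ℝ) * (c * (b + 1))) * Real.log M ≤ K * Real.log M * Real.log M :=
              mul_le_mul_of_nonneg_right h9 (by linarith)
          _ = K * Real.log M ^ 2 := by ring
          _ ≤ K * (η / K * M) := mul_le_mul_of_nonneg_left a5 hK0.le
          _ = M * η := by field_simp
    _ = (x : ℝ) ^ η := by rw [Real.rpow_def_of_pos hx0]

/-- **TSA** (project eu) -/
theorem TSA (hTIA : TIA_stmt) (hFL2 : FL2_stmt) (hTRT : TRT_stmt) : TSA_stmt := by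
  classical
  obtain ⟨c, hFL⟩ := hFL2
  obtain ⟨C, hC, hT⟩ := TSA_tia hTIA
  intro η hη B C₀
  obtain ⟨x₀, hx₀⟩ := TSA_lim C η hη B C₀ c
  refine ⟨x₀, ?_⟩
  intro x hx r hr A hA1 hAx q hq hRq l hl1 hl2 hlp hlq h hh
  obtain ⟨a1, a2, a3, a4⟩ := hx₀ x hx
  set L := Real.log x with hL
  set b : ℕ := ⌈((B : ℝ) + 3) * Real.log L⌉₊ with hb
  have hL0 : 0 < L := by linarith
  have hx0 : (0 : ℝ) < x := by exact_mod_cast (by omega : 0 < x)
  have hZ0 : (0 : ℝ) < Zr r := by unfold Zr; positivity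
  have hZ2 : 2 ≤ Zr r := by
    unfold Zr
    calc 2 = 2 ^ 1 := rfl
      _ ≤ 2 ^ 2 ^ r := Nat.pow_le_pow_right (by norm_num) Nat.one_le_two_pow
  have hZx : Zr r ≤ x := by exact_mod_cast hr.trans a3
  have hqodd : Odd q := by
    rcases Nat.even_or_odd q with h1 | h1
    · exact absurd (hRq 2 Nat.prime_two h1.two_dvd) (by omega)
    · exact h1
  have hq0 : (0 : ℝ) < q := by exact_mod_cast hq
  have hl0 : 0 < l := by
    have : (0 : ℤ) ≤ x := Nat.cast_nonneg x
    linarith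
  -- the case without roots
  rcases Nat.eq_zero_or_pos (rt q) with hR0 | hRpos
  · have k := hT x A a1 hA1 hAx q hqodd l hl1 hl2 hlp hlq 0 (by norm_num)
    rw [hR0] at k ⊢
    simp only [pow_zero, Nat.cast_zero, zero_div, zero_mul, sub_zero, mul_zero,
      Finset.sum_const, nsmul_eq_mul, mul_one, abs_nonpos_iff, Nat.cast_eq_zero,
      Finset.card_eq_zero] at k ⊢
    refine Finset.sum_eq_zero fun a ha => ?_
    exfalso
    rw [Finset.mem_filter] at ha
    have : a ∈ (Icc (1 : ℤ) A).filter (fun a => a % 2 = 1 ∧ q ∣ nn (a, l)) :=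
      Finset.mem_filter.mpr ⟨ha.1, ha.2.1, ha.2.2.1⟩
    rw [k] at this
    exact absurd this (Finset.notMem_empty a)
  have hR : (0 : ℝ) < rt q := by exact_mod_cast hRpos
  set E : ℝ := C * (1 + L) * rt q with hE
  have hE0 : 0 < E := by positivity
  set Sg0 : ℝ := ∑ a ∈ Icc (1 : ℤ) A, Real.log (nn (a, l)) ^ h with hSg0
  set Y : ℝ := rt q / (2 * q) * Sg0 with hY
  set S : Finset ℤ := (Icc (1 : ℤ) A).filter (fun a => a % 2 = 1 ∧ q ∣ nn (a, l)) with hS
  have hlog0 : ∀ a : ℤ, 0 ≤ Real.log (nn (a, l)) := fun a => Real.log_natCast_nonneg _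
  have hSg1 : 0 ≤ Sg0 := Finset.sum_nonneg fun a _ => pow_nonneg (hlog0 a) _
  have hY0 : 0 ≤ Y := by positivity
  have hSg2 : Sg0 ≤ A * (3 * L) := by
    have g1 : ∀ a ∈ Icc (1 : ℤ) A, Real.log (nn (a, l)) ^ h ≤ 3 * L := by
      intro a ha
      obtain ⟨f1, f2, f3⟩ := TSA_nn hAx ha hl1
      have f4 : (nn (a, l) : ℝ) ≤ 32 * (x : ℝ) ^ 2 := by
        have : ((nn (a, l) : ℕ) : ℤ) ≤ 32 * (x : ℤ) ^ 2 := by
          rw [f1]
          nlinarith
        exact_mod_cast this
      have f5 : (0 : ℝ) < nn (a, l) := by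
        have : (0 : ℤ) < ((nn (a, l) : ℕ) : ℤ) := by
          rw [f1]
          nlinarith
        exact_mod_cast this
      have f6 : Real.log (nn (a, l)) ≤ 3 * L := by
        calc Real.log (nn (a, l)) ≤ Real.log (32 * (x : ℝ) ^ 2) := Real.log_le_log f5 f4
          _ = Real.log 32 + 2 * L := by
              rw [Real.log_mul (by norm_num) (by positivity), Real.log_pow]
              push_cast
              rfl
          _ ≤ 3 * L := by
              have : Real.log 32 = 5 * Real.log 2 := by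
                rw [show (32 : ℝ) = 2 ^ 5 by norm_num, Real.log_pow]
                norm_num
              have h2 := Real.log_two_lt_d9
              linarith
      interval_cases h
      · rw [pow_zero]
        linarith
      · rw [pow_one]
        exact f6
    calc Sg0 ≤ ∑ a ∈ Icc (1 : ℤ) A, 3 * L := Finset.sum_le_sum g1
      _ = A * (3 * L) := by
          rw [Finset.sum_const, Int.card_Icc, nsmul_eq_mul]
          simp
  -- the density condition
  have key : ∀ D ⊆ Nat.primesLE (Zr r),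
      |∑ a ∈ S, Real.log (nn (a, l)) ^ h * ∏ p ∈ D, TSA_h l p a - Y * ∏ p ∈ D, (TSA_w p / p)|
        ≤ E * ∏ p ∈ D, TSA_w p := by
    intro D hD
    have hDp : ∀ p ∈ D, p.Prime := fun p hp => (Nat.mem_primesLE.mp (hD hp)).2
    have hDz : ∀ p ∈ D, p ≤ Zr r := fun p hp => (Nat.mem_primesLE.mp (hD hp)).1
    by_cases h2D : 2 ∈ D
    · have w2 : TSA_w 2 = 0 := by
        unfold TSA_w om1
        rw [if_pos Nat.prime_two, if_pos rfl]
      rw [Finset.prod_eq_zero h2D w2, mul_zero,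
        Finset.prod_eq_zero h2D (by rw [w2, zero_div] : TSA_w 2 / ((2 : ℕ) : ℝ) = 0), mul_zero, sub_zero]
      refine le_of_eq ?_
      rw [abs_eq_zero]
      refine Finset.sum_eq_zero fun a ha => ?_
      rw [Finset.prod_eq_zero h2D, mul_zero]
      unfold TSA_h
      rw [if_neg]
      rw [hS, Finset.mem_filter] at ha
      intro hd
      have f1 := (TSA_nn hAx ha.1 hl1).1
      have hd' : (2 : ℤ) ∣ 8 * l ^ 2 - a ^ 2 := by
        rw [← f1]
        exact_mod_cast hd
      have hd2 : (2 : ℤ) ∣ a ^ 2 := by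
        have e : a ^ 2 = 8 * l ^ 2 - (8 * l ^ 2 - a ^ 2) := by ring
        rw [e]
        exact dvd_sub ⟨4 * l ^ 2, by ring⟩ hd'
      have := Int.prime_two.dvd_of_dvd_pow hd2
      have h3 := ha.2.1
      omega
    · have hodd : ∀ p ∈ D, p ≠ 2 := fun p hp h2 => h2D (h2 ▸ hp)
      have hnq : ∀ p ∈ D, ¬ p ∣ q := by
        intro p hp hd
        have := hRq p (hDp p hp) hd
        have := hDz p hp
        omega
      set e : ℕ := ∏ p ∈ D, p with he
      have he1 : 1 ≤ e := Finset.prod_pos fun p hp => (hDp p hp).pos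
      have heodd : Odd e := by
        rw [← Nat.not_even_iff_odd]
        intro hev
        obtain ⟨p, hp, h2⟩ := (Nat.prime_two.prime.dvd_finsetProd_iff _).mp hev.two_dvd
        exact hodd p hp ((Nat.prime_dvd_prime_iff_eq Nat.prime_two (hDp p hp)).mp h2).symm
      have hcqe : Nat.Coprime q e := by
        refine Nat.Coprime.prod_right fun p hp => ?_
        exact ((hDp p hp).coprime_iff_not_dvd.mpr (hnq p hp)).symm
      have hle : IsCoprime l (e : ℤ) := by
        rw [he]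
        push_cast
        refine IsCoprime.prod_right fun p hp => ?_
        obtain ⟨m, hm⟩ : ∃ m : ℕ, l = m := ⟨l.toNat, by rw [Int.toNat_of_nonneg hl0.le]⟩
        rw [hm] at hlp hl1 ⊢
        rw [Int.toNat_natCast] at hlp
        rw [Nat.isCoprime_iff_coprime]
        refine (Nat.coprime_primes hlp (hDp p hp)).mpr ?_
        rintro rfl
        have h5 := hDz m hp
        have h6 : x < m := by exact_mod_cast hl1
        omega
      have hlqe : IsCoprime l ((q * e : ℕ) : ℤ) := by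
        push_cast
        exact hlq.mul_right hle
      have k := hT x A a1 hA1 hAx (q * e) (hqodd.mul heodd) l hl1 hl2 hlp hlqe h hh
      rw [TSA_rt hTRT hq D hDp hnq] at k
      have w1 : ∀ p ∈ D, TSA_w p = rt p := by
        intro p hp
        unfold TSA_w om1
        rw [if_pos (hDp p hp), if_neg (hodd p hp)]
      have w3 : ∏ p ∈ D, TSA_w p = ∏ p ∈ D, (rt p : ℝ) := Finset.prod_congr rfl w1
      have w4 : ∏ p ∈ D, (TSA_w p / p) = (∏ p ∈ D, (rt p : ℝ)) / e := by
        rw [Finset.prod_div_distrib, w3, he]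
        push_cast
        rfl
      have w5 : ∑ a ∈ Icc (1 : ℤ) A with (a % 2 = 1 ∧ q * e ∣ nn (a, l)), Real.log (nn (a, l)) ^ h
          = ∑ a ∈ S, Real.log (nn (a, l)) ^ h * ∏ p ∈ D, TSA_h l p a := by
        simp only [TSA_dvd D hDp, mul_ite, mul_one, mul_zero]
        rw [← Finset.sum_filter, hS, Finset.filter_filter]
        refine Finset.sum_congr ?_ fun _ _ => rfl
        refine Finset.filter_congr fun a _ => ?_
        rw [← he]
        constructor
        · rintro ⟨u1, u2⟩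
          exact ⟨⟨u1, (Dvd.intro _ rfl).trans u2⟩, (Dvd.intro_left _ rfl).trans u2⟩
        · rintro ⟨⟨u1, u2⟩, u3⟩
          exact ⟨u1, hcqe.mul_dvd_of_dvd_of_dvd u2 u3⟩
      rw [w5] at k
      rw [w3, w4]
      have he0 : (0 : ℝ) < e := by exact_mod_cast he1
      have w6 : ((rt q * ∏ p ∈ D, rt p : ℕ) : ℝ) / (2 * ((q * e : ℕ) : ℝ)) * Sg0
          = Y * ((∏ p ∈ D, (rt p : ℝ)) / e) := by
        rw [hY]
        push_cast
        field_simp
      rw [w6] at k
      refine k.trans (le_of_eq ?_)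
      rw [hE]
      push_cast
      ring
  have hmain := hFL b r ℤ S (fun a => Real.log (nn (a, l)) ^ h / E) (TSA_h l)
    (Y / E) TSA_w ?_ ?_ ?_ ?_ TSA_w0 (TSA_w2 hTRT) (TSA_wp hTRT) ?_
  · obtain ⟨m1, m2⟩ := hmain
    have s1 : ∏ p ∈ Nat.primesLE (Zr r), (1 - TSA_w p / p) = WZ r := by
      unfold WZ
      refine Finset.prod_congr rfl fun p hp => ?_
      unfold TSA_w
      rw [if_pos (Nat.mem_primesLE.mp hp).2]
    rw [s1] at m1 m2
    set T := ∑ a ∈ Icc (1 : ℤ) A with (a % 2 = 1 ∧ q ∣ nn (a, l) ∧ RgN (Zr r) (nn (a, l))),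
      Real.log (nn (a, l)) ^ h with hTd
    have s2 : ∑ a ∈ S, Real.log (nn (a, l)) ^ h / E * ∏ p ∈ Nat.primesLE (Zr r), (1 - TSA_h l p a)
        = T / E := by
      rw [hTd, Finset.sum_div]
      simp only [TSA_rg, mul_ite, mul_one, mul_zero]
      rw [← Finset.sum_filter, hS, Finset.filter_filter]
      refine Finset.sum_congr ?_ fun _ _ => rfl
      refine Finset.filter_congr fun a _ => ?_
      rw [and_assoc]
    rw [s2] at m1 m2
    obtain ⟨hW0, hW1⟩ := TSA_WZ hTRT r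
    set W := WZ r with hW
    rw [le_div_iff₀ hE0] at m1
    rw [div_le_iff₀ hE0] at m2
    have s6 : ((1 - (1 / 4 : ℝ) ^ b) * (Y / E) * W - (Zr r : ℝ) ^ (c * (b + 1))) * E
        = W * Y - (1 / 4 : ℝ) ^ b * Y * W - (Zr r : ℝ) ^ (c * (b + 1)) * E := by
      field_simp
    have s7 : ((1 + (1 / 4 : ℝ) ^ b) * (Y / E) * W + (Zr r : ℝ) ^ (c * (b + 1))) * E
        = W * Y + (1 / 4 : ℝ) ^ b * Y * W + (Zr r : ℝ) ^ (c * (b + 1)) * E := by
      field_simp
    rw [s6] at m1
    rw [s7] at m2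
    have hb4 : L ^ (B + 3) ≤ (4 : ℝ) ^ b := by
      calc L ^ (B + 3) = Real.exp ((B + 3 : ℕ) * Real.log L) := by
            rw [Real.exp_nat_mul, Real.exp_log hL0]
        _ ≤ Real.exp b := by
            rw [Real.exp_le_exp]
            push_cast
            exact Nat.le_ceil _
        _ = Real.exp 1 ^ b := by
            rw [← Real.exp_nat_mul, mul_one]
        _ ≤ 4 ^ b := by
            refine pow_le_pow_left₀ (Real.exp_pos _).le ?_ _
            have := Real.exp_one_lt_d9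
            linarith
    have s8 : (Zr r : ℝ) ^ (c * (b + 1)) * E ≤ rt q * (x : ℝ) ^ η := by
      calc (Zr r : ℝ) ^ (c * (b + 1)) * E ≤ (L ^ (2 * C₀)) ^ (c * (b + 1)) * E :=
            mul_le_mul_of_nonneg_right (pow_le_pow_left₀ hZ0.le hr _) hE0.le
        _ = rt q * (C * (1 + L) * (L ^ (2 * C₀)) ^ (c * (b + 1))) := by
            rw [hE]
            ring
        _ ≤ rt q * (x : ℝ) ^ η := mul_le_mul_of_nonneg_left a4 hR.le
    have s9 : (1 / 4 : ℝ) ^ b * Y * W ≤ rt q * (A / (q * L ^ B)) := by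
      have u1 : (1 / 4 : ℝ) ^ b ≤ 1 / L ^ (B + 3) := by
        rw [one_div_pow]
        exact one_div_le_one_div_of_le (by positivity) hb4
      have u2 : Y ≤ rt q / (2 * q) * (A * (3 * L)) :=
        mul_le_mul_of_nonneg_left hSg2 (by positivity)
      calc (1 / 4 : ℝ) ^ b * Y * W ≤ (1 / 4 : ℝ) ^ b * Y * 1 :=
            mul_le_mul_of_nonneg_left hW1 (by positivity)
        _ = (1 / 4 : ℝ) ^ b * Y := mul_one _
        _ ≤ 1 / L ^ (B + 3) * (rt q / (2 * q) * (A * (3 * L))) :=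
            mul_le_mul u1 u2 hY0 (by positivity)
        _ = rt q * (A / (q * L ^ B)) * (3 / (2 * L ^ 2)) := by
            rw [pow_add]
            field_simp
        _ ≤ rt q * (A / (q * L ^ B)) * 1 := by
            refine mul_le_mul_of_nonneg_left ?_ (by positivity)
            rw [div_le_one (by positivity)]
            nlinarith
        _ = rt q * (A / (q * L ^ B)) := mul_one _
    rw [abs_le, mul_add]
    constructor <;> linarith
  · intro a _
    exact div_nonneg (pow_nonneg (hlog0 a) _) hE0.le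
  · intro p z _
    unfold TSA_h; split_ifs <;> norm_num
  · intro p z _
    unfold TSA_h; split_ifs <;> norm_num
  · positivity
  · intro D hD
    have k := key D hD
    have t1 : ∑ a ∈ S, Real.log (nn (a, l)) ^ h / E * ∏ p ∈ D, TSA_h l p a
        = (∑ a ∈ S, Real.log (nn (a, l)) ^ h * ∏ p ∈ D, TSA_h l p a) / E := by
      rw [Finset.sum_div]
      exact Finset.sum_congr rfl fun z _ => by ring
    rw [t1]
    have t3 : (∑ a ∈ S, Real.log (nn (a, l)) ^ h * ∏ p ∈ D, TSA_h l p a) / E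
          - Y / E * ∏ p ∈ D, (TSA_w p / p)
        = ((∑ a ∈ S, Real.log (nn (a, l)) ^ h * ∏ p ∈ D, TSA_h l p a)
          - Y * ∏ p ∈ D, (TSA_w p / p)) / E := by
      field_simp
    rw [t3, abs_div, abs_of_pos hE0, div_le_iff₀ hE0, mul_comm]
    rw [mul_comm] at k
    exact k.trans (le_of_eq (mul_comm _ _))

end Pool.Agent.EU
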